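import Pool.Agent.Helper63.Sey4.Goals
import Pool.Agent.Helper51.Girth4.LLL

/-!
# Packet SEY4-CAN

Bad partial assignments for independent uniform variables.
-/

namespace Pool.Agent.Helper95.Sey4

open Pool.Agent.Helper63.Sey4
open Pool.Agent.Helper41.Girth4
open Finset

/-- `1 - ∑ x ≤ ∏ (1 - x)` -/
lemma one_sub_sum_le {ι : Type} [DecidableEq ι] (s : Finset ι) (x : ι → ℝ) (h0 : ∀ i, 0 ≤ x i)
    (h1 : ∀ i, x i ≤ 1) : 1 - ∑ i ∈ s, x i ≤ ∏ i ∈ s, (1 - x i) := by
  induction s using Finset.induction_on with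
  | empty => simp
  | insert a s ha ih =>
    rw [Finset.sum_insert ha, Finset.prod_insert ha]
    have h2 : ∏ i ∈ s, (1 - x i) ≤ 1 :=
      Finset.prod_le_one (fun i _ => by linarith [h1 i]) (fun i _ => by linarith [h0 i])
    have h3 : (1 - x a) * ∏ i ∈ s, (1 - x i) = ∏ i ∈ s, (1 - x i) - x a * ∏ i ∈ s, (1 - x i) := by
      ring
    have h4 : x a * ∏ i ∈ s, (1 - x i) ≤ x a * 1 := mul_le_mul_of_nonneg_left h2 (h0 a)
    rw [h3]
    linarith

/-- products over a larger set of numbers in `[0, 1]` are smaller -/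
lemma prod_anti {ι : Type} [DecidableEq ι] {s t : Finset ι} (hst : s ⊆ t) (f : ι → ℝ)
    (h0 : ∀ i, 0 ≤ f i) (h1 : ∀ i, f i ≤ 1) : ∏ i ∈ t, f i ≤ ∏ i ∈ s, f i := by
  rw [← Finset.prod_sdiff hst]
  have h2 : ∏ i ∈ t \ s, f i ≤ 1 := Finset.prod_le_one (fun i _ => h0 i) (fun i _ => h1 i)
  have h3 : 0 ≤ ∏ i ∈ s, f i := Finset.prod_nonneg fun i _ => h0 i
  exact mul_le_of_le_one_left h3 h2

/-- the product over a union -/
lemma prod_biUnion_ge {κ ι : Type} [DecidableEq κ] [DecidableEq ι] (F : Finset κ)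
    (S : κ → Finset ι) (f : ι → ℝ) (h0 : ∀ i, 0 ≤ f i) (h1 : ∀ i, f i ≤ 1) :
    ∏ e ∈ F, ∏ j ∈ S e, f j ≤ ∏ j ∈ F.biUnion S, f j := by
  induction F using Finset.induction_on with
  | empty => simp
  | insert a F ha ih =>
    rw [Finset.prod_insert ha, Finset.biUnion_insert]
    have h2 := Finset.prod_union_inter (s₁ := S a) (s₂ := F.biUnion S) (f := f)
    have h3 : ∏ j ∈ S a ∩ F.biUnion S, f j ≤ 1 :=
      Finset.prod_le_one (fun i _ => h0 i) (fun i _ => h1 i)
    have h4 : 0 ≤ ∏ j ∈ S a ∪ F.biUnion S, f j := Finset.prod_nonneg fun i _ => h0 i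
    have h5 : 0 ≤ ∏ j ∈ S a, f j := Finset.prod_nonneg fun i _ => h0 i
    calc (∏ j ∈ S a, f j) * ∏ e ∈ F, ∏ j ∈ S e, f j
        ≤ (∏ j ∈ S a, f j) * ∏ j ∈ F.biUnion S, f j := mul_le_mul_of_nonneg_left ih h5
      _ = (∏ j ∈ S a ∪ F.biUnion S, f j) * ∏ j ∈ S a ∩ F.biUnion S, f j := h2.symm
      _ ≤ ∏ j ∈ S a ∪ F.biUnion S, f j := mul_le_of_le_one_right h4 h3

lemma pr_eq_fin {T : ℕ} (t : Fin T) : Pr (fun x : Fin T => x = t) = 1 / T := by
  classical
  rw [Pr_eq_card]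
  have : (Finset.univ.filter fun x : Fin T => x = t) = {t} := by
    ext x; simp
  rw [this, Finset.card_singleton, Fintype.card_fin]
  simp

theorem goalCAN : GoalLOPS → GoalCAN := by
  classical
  intro hL E _ T B hT hB hsum
  have hTpos : (0 : ℝ) < T := by exact_mod_cast hT
  have : Nonempty (Fin T) := ⟨⟨0, hT⟩⟩
  let occ : Finset (E × Fin T) → E → Prop := fun b e => ∃ t, (e, t) ∈ b
  let A : {b // b ∈ B} → (E → Fin T) → Prop := fun b τ => ∀ p ∈ b.1, τ p.1 = p.2
  let Nb : {b // b ∈ B} → {b // b ∈ B} → Prop := fun b b' => ∃ e, occ b.1 e ∧ occ b'.1 e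
  let x : {b // b ∈ B} → ℝ := fun b => (2 / (T : ℝ)) ^ b.1.card
  have hx0 : ∀ b, 0 ≤ x b := fun b => by positivity
  have hsum' : ∀ e : E, ∑ j ∈ univ.filter (fun j : {b // b ∈ B} => occ j.1 e), x j ≤ 1 / 2 := by
    intro e
    refine le_trans (le_of_eq ?_) (hsum e)
    rw [Finset.sum_filter, Finset.sum_filter]
    rw [← Finset.sum_coe_sort B (fun b => if ∃ t, (e, t) ∈ b then (2 / (T : ℝ)) ^ b.card else 0)]
  have hxh : ∀ b, x b ≤ 1 / 2 := by
    intro b
    obtain ⟨p, hp⟩ := (hB b.1 b.2).1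
    refine le_trans ?_ (hsum' p.1)
    apply Finset.single_le_sum (f := x) (fun i _ => hx0 i)
    exact Finset.mem_filter.2 ⟨Finset.mem_univ _, p.2, hp⟩
  have hcard : ∀ b ∈ B, (univ.filter (fun e => occ b e)).card = b.card := by
    intro b hb
    have h1 : univ.filter (fun e => occ b e) = b.image Prod.fst := by
      ext e
      simp only [Finset.mem_filter, Finset.mem_univ, true_and, Finset.mem_image, occ]
      constructor
      · rintro ⟨t, ht⟩
        exact ⟨(e, t), ht, rfl⟩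
      · rintro ⟨⟨e', t⟩, h, rfl⟩
        exact ⟨t, h⟩
    rw [h1, Finset.card_image_of_injOn]
    intro p hp q hq hpq
    exact (hB b hb).2 p hp q hq hpq
  have hc1 : ∀ (i : {b // b ∈ B}) (S : Finset {b // b ∈ B}), (∀ j ∈ S, ¬ Nb i j) →
      Pr (fun ω => A i ω ∧ ∀ j ∈ S, ¬ A j ω) ≤
        (1 / (T : ℝ)) ^ i.1.card * Pr (fun ω => ∀ j ∈ S, ¬ A j ω) := by
    intro i S hS
    have h1 := Pool.Agent.Helper51.Girth4.Pr_indep (I := E) (L := Fin T) {e | occ i.1 e} (A i)
      (fun ω => ∀ j ∈ S, ¬ A j ω) (by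
        intro ω ω' h hA p hp
        rw [← h p.1 ⟨p.2, hp⟩]
        exact hA p hp) (by
        intro ω ω' h hA j hj hAj
        apply hA j hj
        intro p hp
        rw [h p.1 (fun hp' => hS j hj ⟨p.1, hp', p.2, hp⟩)]
        exact hAj p hp)
    rw [h1]
    apply mul_le_mul_of_nonneg_right _ (Pr_nonneg _)
    have h2 : Pr (A i) = ∏ e : E, Pr (fun y : Fin T => ∀ t, (e, t) ∈ i.1 → y = t) := by
      rw [← Pr_pi]
      apply Pr_congr
      intro ω
      constructor
      · intro h e t ht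
        exact h (e, t) ht
      · rintro h ⟨e, t⟩ hp
        exact h e t hp
    rw [h2]
    calc ∏ e : E, Pr (fun y : Fin T => ∀ t, (e, t) ∈ i.1 → y = t)
        ≤ ∏ e : E, (if occ i.1 e then 1 / (T : ℝ) else 1) := by
          apply Finset.prod_le_prod (fun e _ => Pr_nonneg _)
          intro e _
          split_ifs with h
          · obtain ⟨t, ht⟩ := h
            rw [← pr_eq_fin t]
            exact Pr_mono fun y hy => hy t ht
          · exact Pr_le_one _
      _ = (1 / (T : ℝ)) ^ i.1.card := by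
          rw [← Finset.prod_filter, Finset.prod_const, hcard i.1 i.2]
  have hc2 : ∀ i : {b // b ∈ B}, (1 / (T : ℝ)) ^ i.1.card ≤
      x i * ∏ j ∈ univ.filter (fun j => Nb i j ∧ j ≠ i), (1 - x j) := by
    intro i
    have hf0 : ∀ b, 0 ≤ 1 - x b := fun b => by linarith [hxh b]
    have hf1 : ∀ b, 1 - x b ≤ 1 := fun b => by linarith [hx0 b]
    have h1 : ∏ e ∈ univ.filter (fun e => occ i.1 e),
        ∏ j ∈ univ.filter (fun j : {b // b ∈ B} => occ j.1 e), (1 - x j) ≤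
        ∏ j ∈ univ.filter (fun j => Nb i j ∧ j ≠ i), (1 - x j) := by
      refine le_trans (prod_biUnion_ge _ _ (fun j => 1 - x j) hf0 hf1) ?_
      apply prod_anti _ (fun j => 1 - x j) hf0 hf1
      intro j hj
      obtain ⟨⟨e, he, he'⟩, _⟩ := (Finset.mem_filter.1 hj).2
      refine Finset.mem_biUnion.2 ⟨e, ?_, ?_⟩
      · exact Finset.mem_filter.2 ⟨Finset.mem_univ _, he⟩
      · exact Finset.mem_filter.2 ⟨Finset.mem_univ _, he'⟩
    have h2 : (1 / 2 : ℝ) ^ i.1.card ≤ ∏ e ∈ univ.filter (fun e => occ i.1 e),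
        ∏ j ∈ univ.filter (fun j : {b // b ∈ B} => occ j.1 e), (1 - x j) := by
      rw [← hcard i.1 i.2, ← Finset.prod_const]
      apply Finset.prod_le_prod (fun e _ => by norm_num)
      intro e _
      have := one_sub_sum_le (univ.filter (fun j : {b // b ∈ B} => occ j.1 e)) x hx0
        (fun b => by linarith [hxh b])
      linarith [hsum' e]
    have h3 : (1 / (T : ℝ)) ^ i.1.card = x i * (1 / 2) ^ i.1.card := by
      simp only [x]
      rw [← mul_pow]
      congr 1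
      ring
    rw [h3]
    exact mul_le_mul_of_nonneg_left (h2.trans h1) (hx0 i)
  obtain ⟨τ, hτ⟩ := hL (E → Fin T) {b // b ∈ B} A (fun b => (1 / (T : ℝ)) ^ b.1.card) x Nb
    (fun b => ⟨hx0 b, by linarith [hxh b]⟩) hc1 (fun i => by convert hc2 i)
  refine ⟨τ, fun b hb => ?_⟩
  have h1 := hτ ⟨b, hb⟩
  simp only [A] at h1
  push Not at h1
  exact h1

end Pool.Agent.Helper95.Sey4
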